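import Pool.Agent.D0H50.HL.Fin

/-!
# The group of Hamiltonian homeomorphisms of the ball is simple or exhausted by a chain of normal
subgroups of order type `ℝ`

`HamHomeo n` is the group of the compactly supported Hamiltonian homeomorphisms of the open unit ball
of `ℝ^{2n}` (definitions in `Pool/Agent/Y453/HB/Stm.lean` and `Pool/Agent/R773/HN/Defs.lean`; the same
group as in the frozen statement S13311).

Theorem, for all `n ≥ 1`. The group is simple, or there are normal subgroups `N t`, `t ∈ ℝ`, with
`N s < N t` for `s < t`, whose union is the whole group; all of them are dense with respect to uniform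
convergence. So the group is simple if and only if it is not the union of a strictly increasing
sequence of normal subgroups, and if and only if it has fewer than `2 ^ ℵ₀` normal subgroups.

Proof. For `0 < s < 1` let `φ ↦ φ^{(s)}` be the conjugation by the dilation `x ↦ s x`. Every element
of the group `G` is of the form `ψ^{(s)}` for some `s < 1` (`Exp.lean`: if `u ∈ Ham_c(B)` is supported
in the ball of radius `ρ < s < 1`, then its expansion by the factor `1 / s` is in `Ham_c(B)`; a
Hamiltonian of the path `r ↦ u^{(r)}` is obtained from the action function of `u`). Let `N s` be the
normal closure of the group of the `ψ^{(s)}`. If `N s = N r` for some `s < r`, then `N` is constant on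
`(0, r]`. So either `N` is strictly increasing on some interval `(a, 1)`, and then it gives the
chain, or `N s = G` for all `s`. In the second case the smallest nontrivial normal subgroup `S` is the
commutator subgroup (`SmallestNormalSubgroup.lean`), and the dilations act on the abelian group
`A = G / S` by a semigroup of surjective endomorphisms `D s`. Infinite products of dilates give
`(1 - D s) A = A` for all `s` (`HomogeneousQuasimorphisms.lean`). If the kernels of the `D s` exhaust
`A ≠ 0`, they give the chain. Otherwise one may assume that the `D s` are injective. If `A` has
infinitely many elements of some prime order `p`, or infinitely many independent elements over `ℤ`, it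
has a homomorphism to `⨁_{q ∈ ℚ} ℚ / ℤ` which gives the chain. If not, then there are `s < r` such
that `D s` and `D r` agree up to torsion, and for `q = s / r` the map `D q - 1` has values in the
torsion, on which `D q` is the identity, because a divisible group has no nontrivial finite
quotients. So `(1 - D q) ^ 2 = 0` and `A = 0`.
-/

set_option autoImplicit false

namespace Pool.Agent.Results.MP_68f289_gt.ChainsOfNormalSubgroups

open Pool.Agent.R773.HN (HamHomeo DenseInHam)
open Pool.Agent.D0H50.HL

/-- Let `n ≥ 1` and let `G = HamHomeo n` be the group of the compactly supported Hamiltonian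
homeomorphisms of the open unit ball of `ℝ^{2n}`.

* If `G` is not simple, then it is the union of normal subgroups `N t`, `t ∈ ℝ`, with `N s < N t` for
  all `s < t`, which are dense in `G` with respect to uniform convergence.
* `G` is simple if and only if it is not the union of a strictly increasing sequence of normal
  subgroups.
* `G` is simple if and only if the number of its normal subgroups is smaller than the cardinality of
  the continuum. -/
theorem result (n : ℕ) (hn : 0 < n) :
    (¬ IsSimpleGroup (HamHomeo n) → ∃ N : ℝ → Subgroup (HamHomeo n), StrictMono N ∧
      (∀ t, (N t).Normal ∧ DenseInHam (N t : Set (HamHomeo n))) ∧ ∀ φ, ∃ t, φ ∈ N t) ∧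
    (IsSimpleGroup (HamHomeo n) ↔ ¬ ∃ N : ℕ → Subgroup (HamHomeo n), StrictMono N ∧
      (∀ k, (N k).Normal) ∧ ∀ φ, ∃ k, φ ∈ N k) ∧
    (IsSimpleGroup (HamHomeo n) ↔
      Cardinal.mk {N : Subgroup (HamHomeo n) // N.Normal} < Cardinal.continuum) := by
  have h : IsSimpleGroup (HamHomeo n) ∨ HasNormalChain (HamHomeo n) := dichotomy hn
  refine ⟨fun hs => ?_, simple_iff_nat h, simple_iff_card h⟩
  rcases h with h | ⟨N, hN, hn', hu⟩
  · exact absurd h hs
  · refine ⟨N, hN, fun t => ⟨hn' t, ?_⟩, hu⟩
    refine dense hn (hn' t) ?_
    intro hb
    have h1 : N (t - 1) < N t := hN (sub_one_lt t)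
    rw [hb] at h1
    exact not_lt_bot h1

end Pool.Agent.Results.MP_68f289_gt.ChainsOfNormalSubgroups
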