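import Pool.Agent.D0H79.HX.Crit
import Pool.Agent.R773.HN.Defs

/-!
# Finitely many elements decide whether the group of Hamiltonian homeomorphisms is simple

`HamHomeo n` is the group of the compactly supported Hamiltonian homeomorphisms of the open unit ball
of `ℝ^{2n}` (definitions in `Pool/Agent/Y453/HB/Stm.lean` and `Pool/Agent/R773/HN/Defs.lean`; the same
group as in the frozen statement S13311).

Theorem, for all `n ≥ 1`. The group is simple, or every finite subset of it is contained in a normal
subgroup whose index is the cardinality of the continuum. So the group is simple if and only if it is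
the normal closure of a finite set, and its smallest nontrivial normal subgroup has index `1` or
`2 ^ ℵ₀`. The same alternative for the index holds for the commutator subgroup and for the normal
closures of all countable sets. Moreover, the normal closure of an element `g` is the whole group if
and only if for every compact `K ⊆ B` the uniform limits of elements of `Ham_c(B)` supported in `K`
which are near enough to the identity are products of a bounded number of conjugates of `g` and
`g⁻¹`.

Proof. The limits supported in a closed ball form a Polish group, so the whole group is a countable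
union of Polish groups. Subgroups which are normal closures of analytic sets are analytic. If such a
subgroup is not meager in all of these Polish groups then it is open in them (Pettis), contains
`Ham_c(B)` and is everything; if it is meager in one of them then it has continuum many cosets
(Mycielski). It remains to find a proper analytic normal subgroup which contains a given finite set.
Every element is the conjugate `ψ^{(s)}` of an element of the group by a dilation with factor
`s < 1`: if `u ∈ Ham_c(B)` is supported in a ball of radius `r < 1`, then all the conjugates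
`u^{(s)}`, `s r < 1`, are in `Ham_c(B)`, because the path `s ↦ u^{(s)}` is generated by the
Hamiltonian `s g(x / s)`, where `g` is a primitive of the closed form `Ω(z - Du(u⁻¹ z) u⁻¹ z, ·)`.
Let `N s` be the normal closure of the group of the `ψ^{(s)}`. If `N s` is the whole group for one
`s < 1`, then so is `N (s ^ k)` for all `k`, so the group is generated by elements with small
supports, and then it is simple or not perfect (`SmallestNormalSubgroup.lean`); in the second case
its abelianization has the cardinality of the continuum and is not finitely generated.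
-/

set_option autoImplicit false

open Set

namespace Pool.Agent.Results.MP_68f289_gt.FinitelyManyElementsDecide

open Pool.Agent.Y453.HB (E Q)
open Pool.Agent.R773.HN (Homeos HamHomeo IsHamDiffeo SupportedIn)

/-- `φ` is supported in `K` and a uniform limit of elements of `Ham_c(B)` supported in `K` -/
def LimitIn {n : ℕ} (K : Set (E n)) (φ : HamHomeo n) : Prop :=
  SupportedIn K φ ∧ ∀ ε : ℝ, 0 < ε → ∃ u : HamHomeo n, IsHamDiffeo u.1 ∧ SupportedIn K u ∧
    ∀ x, dist (u.1.map x) (φ.1.map x) < ε

/-- `φ` is a product of at most `m` conjugates of `g` and `g⁻¹` -/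
def IsShortProduct {G : Type} [Group G] (g : G) (m : ℕ) (φ : G) : Prop :=
  ∃ l : List G, l.length ≤ m ∧ (∀ y ∈ l, IsConj g y ∨ IsConj g⁻¹ y) ∧ l.prod = φ

/-! ### Proof -/

open Pool.Agent.N235.DH in
theorem limit_iff {n : ℕ} {K : Set (E n)} {φ : HamHomeo n} :
    LimitIn K φ ↔ (φ.1 : E n ≃ₜ E n) ∈ HK n K := by
  constructor
  · rintro ⟨h1, h2⟩
    choose u hu1 hu2 hu3 using fun k : ℕ => h2 (1 / ((k : ℝ) + 1)) (by positivity)
    refine ⟨h1, fun k => (u k).1, fun k => hu2 k, fun k => hu1 k, ?_⟩
    rw [Metric.tendstoUniformly_iff]
    intro ε hε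
    have h3 := tendsto_one_div_add_atTop_nhds_zero_nat (𝕜 := ℝ)
    filter_upwards [h3.eventually (gt_mem_nhds hε)] with k hk x
    rw [dist_comm]
    exact (hu3 k x).trans hk
  · rintro ⟨h1, u, h2, h3, h4⟩
    refine ⟨h1, fun ε hε => ?_⟩
    obtain ⟨k, hk⟩ := (Metric.tendstoUniformly_iff.1 h4 ε hε).exists
    refine ⟨⟨u k, Pool.Agent.D0H79.HX.mem_ham.2 (Pool.Agent.Y453.HB.ham_mem (h3 k))⟩, h3 k,
      fun x hx => h2 k x hx, fun x => ?_⟩
    rw [dist_comm]
    exact hk x

theorem smallest (n : ℕ) (hn : 0 < n) :
    ∃ S : Subgroup (HamHomeo n), S.Normal ∧ IsSimpleGroup S ∧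
      (∀ N : Subgroup (HamHomeo n), N.Normal → N ≠ ⊥ → S ≤ N) ∧
      (S = ⊤ ∨ Cardinal.mk (HamHomeo n ⧸ S) = Cardinal.continuum) := by
  obtain ⟨S, h1, h2, h3, -⟩ := Pool.Agent.R773.HN.main_of' Pool.Agent.R773.HN.hSm
    Pool.Agent.R773.HN.hCo hn (Pool.Agent.Y453.HB.HamBar n)
    (fun u hu => Pool.Agent.D0H79.HX.mem_ham.2 (Pool.Agent.Y453.HB.ham_mem hu)) le_rfl
  refine ⟨S, h1, h2, h3, ?_⟩
  by_cases hs : IsSimpleGroup (Pool.Agent.Y453.HB.HamBar n)
  · left
    rcases hs.eq_bot_or_eq_top_of_normal S h1 with h | h
    · exfalso
      rw [h] at h2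
      have := h2.toNontrivial
      exact not_subsingleton _ (inferInstance :
        Subsingleton (⊥ : Subgroup (Pool.Agent.Y453.HB.HamBar n)))
    · exact h
  · right
    obtain ⟨g, hg⟩ := Pool.Agent.D0H79.HX.nontriv hn
    obtain ⟨N, hN, hX, hc⟩ := Pool.Agent.D0H79.HX.dichotomy hn hs (finite_singleton g)
    have hSN : S ≤ N := h3 N hN fun h => by
      have h4 : g ∈ N := hX rfl
      rw [h, Subgroup.mem_bot] at h4
      exact hg h4
    refine le_antisymm ((Cardinal.mk_le_of_surjective
      (QuotientGroup.mk_surjective (s := S))).trans Pool.Agent.D0H79.HX.card_ham) ?_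
    rw [← hc]
    refine Cardinal.mk_le_of_surjective (f := Subgroup.quotientMapOfLE hSN) ?_
    intro q
    obtain ⟨x, rfl⟩ := QuotientGroup.mk_surjective q
    exact ⟨QuotientGroup.mk x, rfl⟩

/-- Let `n ≥ 1` and let `G = HamHomeo n` be the group of the compactly supported Hamiltonian
homeomorphisms of the open unit ball `B` of `ℝ^{2n}`.

* `G` is simple if and only if it is the normal closure of a finite set.
* If `G` is not simple, then every finite subset of `G` is contained in a normal subgroup of `G`
  whose index is the cardinality of the continuum.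
* The smallest nontrivial normal subgroup of `G` is `G` or has index continuum; the same holds for
  the commutator subgroup and for the normal closure of any countable set.
* The normal closure of `g` is `G` if and only if for every compact `K ⊆ B` there are `m` and
  `ε > 0` such that all `φ` in `G` which are limits of elements of `Ham_c(B)` supported in `K` and
  move no point by `ε` or more are products of at most `m` conjugates of `g` and `g⁻¹`. -/
theorem result (n : ℕ) (hn : 0 < n) :
    (IsSimpleGroup (HamHomeo n) ↔
      ∃ X : Set (HamHomeo n), X.Finite ∧ Subgroup.normalClosure X = ⊤) ∧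
    (¬ IsSimpleGroup (HamHomeo n) → ∀ X : Set (HamHomeo n), X.Finite →
      ∃ N : Subgroup (HamHomeo n), N.Normal ∧ X ⊆ N ∧
        Cardinal.mk (HamHomeo n ⧸ N) = Cardinal.continuum) ∧
    (∃ S : Subgroup (HamHomeo n), S.Normal ∧ IsSimpleGroup S ∧
      (∀ N : Subgroup (HamHomeo n), N.Normal → N ≠ ⊥ → S ≤ N) ∧
      (S = ⊤ ∨ Cardinal.mk (HamHomeo n ⧸ S) = Cardinal.continuum)) ∧
    (commutator (HamHomeo n) = ⊤ ∨
      Cardinal.mk (HamHomeo n ⧸ commutator (HamHomeo n)) = Cardinal.continuum) ∧
    (∀ X : Set (HamHomeo n), X.Countable → Subgroup.normalClosure X = ⊤ ∨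
      Cardinal.mk (HamHomeo n ⧸ Subgroup.normalClosure X) = Cardinal.continuum) ∧
    ∀ g : HamHomeo n, Subgroup.normalClosure {g} = ⊤ ↔
      ∀ K : Set (E n), IsCompact K → K ⊆ {p : E n | Q p < 1} → ∃ (m : ℕ) (ε : ℝ), 0 < ε ∧
        ∀ φ : HamHomeo n, LimitIn K φ → (∀ x, dist (φ.1.map x) x < ε) → IsShortProduct g m φ := by
  refine ⟨Pool.Agent.D0H79.HX.simple_iff hn,
    fun h X hX => Pool.Agent.D0H79.HX.dichotomy hn h hX, smallest n hn,
    Pool.Agent.D0H79.HX.abel, fun X hX => Pool.Agent.D0H79.HX.countable_nc hX, fun g => ?_⟩
  refine (Pool.Agent.D0H79.HX.crit g).trans ?_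
  constructor
  · intro h K hK hKQ
    obtain ⟨m, ε, hε, hm⟩ := h K hK hKQ
    exact ⟨m, ε, hε, fun φ hφ hd => hm φ (limit_iff.1 hφ) hd⟩
  · intro h K hK hKQ
    obtain ⟨m, ε, hε, hm⟩ := h K hK hKQ
    exact ⟨m, ε, hε, fun φ hφ hd => hm φ (limit_iff.2 hφ) hd⟩

end Pool.Agent.Results.MP_68f289_gt.FinitelyManyElementsDecide
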