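import Pool.Agent.D0H34.SI.Cv
import Pool.Agent.D0H34.SI.Defs
import Pool.Agent.D0H34.SI.Defs2
import Pool.Agent.R773.HN.Defs3

/-!
# Length functions on the group of Hamiltonian homeomorphisms of the ball, and simplicity

Definitions: `Pool/Agent/D0H34/SI/Defs.lean`, `Pool/Agent/D0H34/SI/Defs2.lean`,
`Pool/Agent/R773/HN/Defs.lean`, `Pool/Agent/R773/HN/Defs3.lean`, `Pool/Agent/R773/HN/Stm3.lean` and
`Pool/Agent/Y453/HB/Stm.lean` (the same as in the frozen statement S13311).

Here `HamHomeo n` is the group of compactly supported Hamiltonian homeomorphisms of the open unit
ball `B` of `ℝ^{2n}`, `LimIn K φ`: `φ` is supported in the compact set `K ⊆ B` and a uniform limit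
of elements of `Ham_c(B)` supported in `K`.

Proof (folder `Pool/Agent/D0H34/SI`). `Ln.lean`: for every increasing sequence of symmetric sets
`W m` with `W m * W m ⊆ W (m + 1)` that covers the smallest normal subgroup `S` and for every `K`,
one of them contains all the commutators of limits supported in `K` and in a common small ball
(diagonal argument on infinite products in disjoint balls; four conjugates of one element; transport
of the balls by elements of `S`; compactness). `Cf.lean`, `Cf2.lean`: the conjugates of a commutator
of Hamiltonian diffeomorphisms by an equicontinuous family of limits are products of a bounded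
number of such commutators. `An.lean`, `Sp.lean`: Baire category and the theorem of Pettis for
analytic sets (folder `Pool/Agent/D0H79/HX`, helper79). `Dv.lean`, `Cv.lean`: if the group is not
perfect, the classes in its abelianization of the limits close to the identity are not in any
countable set; characters of the abelianization and the injectivity of the direct sum of copies of
`ℚ/ℤ` give an increasing sequence of subgroups none of which contains a neighbourhood of the
identity.
-/

set_option autoImplicit false

namespace Pool.Agent.Results.MP_68f289_gt.LengthFunctions

open Pool.Agent.Y453.HB (E HamBar)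
open Pool.Agent.R773.HN
open Pool.Agent.D0H34.SI

/-- Let `n ≥ 1`, and let `S` be the smallest nontrivial normal subgroup of the group `HamHomeo n` of
compactly supported Hamiltonian homeomorphisms of the ball `B` of `ℝ^{2n}`.

1. Let `ℓ` be any length function on `S`: `ℓ (g h) ≤ ℓ g + ℓ h`, `ℓ g⁻¹ = ℓ g`. Then for every
   compact `K ⊆ B` the function `ℓ` is bounded on the commutators of limits of elements of
   `Ham_c(B)` supported in `K` and in a common ball of radius `η`, for some `η > 0`, and bounded on
   `g ⁅a, b⁆ g⁻¹`, where `a`, `b` are the time one maps of fixed Hamiltonians supported in `K` and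
   `g` runs through any equicontinuous family of limits of elements of `Ham_c(B)` supported
   in `K`.
2. The following are equivalent:
   * `HamHomeo n` is simple;
   * local fragmentation: for every compact `K ⊆ B` and `η > 0` there are `K'`, `N`, `ε` such that
     every limit supported in `K` which moves no point by `ε` or more is a product of at most `N`
     commutators of limits supported in `K'` and in a common ball of radius at most `η`;
   * `HamHomeo n` is generated by the conjugates of the elements with small supports, and every
     length function on it is bounded, for every `K`, on the limits supported in `K` which are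
     close to the identity;
   * `HamHomeo n` is generated by the conjugates of the elements with small supports, and if it is
     the union of an increasing sequence of subgroups, then for every `K` one of them contains the
     limits supported in `K` which are close to the identity. -/
theorem result (n : ℕ) (hn : 0 < n) :
    (∃ S : Subgroup (HamHomeo n), IsSmallestNormal S ∧
      ∀ ℓ : HamHomeo n → ℝ, IsLength S ℓ → ∀ K : Set (E n), CptIn K →
        BoundedOnSmall ℓ K ∧ BoundedOnConj ℓ K) ∧
    ∀ ε : ℝ, 0 < ε → ε ≤ 1 / 100 →
      [IsSimpleGroup (HamHomeo n),
        LocallyFragmented n,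
        FragGroup (HamHomeo n) ε = ⊤ ∧ LengthsBounded n,
        FragGroup (HamHomeo n) ε = ⊤ ∧ ChainsStationary n].TFAE := by
  refine ⟨⟨S1 n, S0_smallest hn, fun ℓ hℓ K hK =>
    ⟨boundedOnSmall hn hℓ hK, boundedOnConj hn hℓ hK⟩⟩, fun ε hε0 hε => ?_⟩
  have hΓ : Mid (HamBar n) := midB
  obtain ⟨S, -, -, -, -, -, -, -, s8⟩ := main_of' hSm hCo hn (HamBar n) hΓ.1 hΓ.2
  have hiff : IsSimpleGroup (HamHomeo n) ↔
      FragGroup (HamHomeo n) ε = ⊤ ∧ commutator (HamHomeo n) = ⊤ := (s8 ε hε0 hε).2
  tfae_have 1 → 2 := fun h => locallyFragmented_of hn (top_of_simple hn h)
  tfae_have 2 → 1 := fun h => simple_of_top hn (top_of_frag hn h)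
  tfae_have 1 → 3 := fun h => ⟨(hiff.1 h).1, lengthsBounded_of hn (top_of_simple hn h)⟩
  tfae_have 3 → 4 := fun h => ⟨h.1, chains_of_lengths h.2⟩
  tfae_have 4 → 1 := fun h => hiff.2 ⟨h.1, perfect_of_chains h.2⟩
  tfae_finish

end Pool.Agent.Results.MP_68f289_gt.LengthFunctions
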