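import Pool.Agent.D0H34.SI.Card
import Pool.Agent.D0H34.SI.Defs
import Pool.Agent.R773.HN.Fin3
import Pool.Agent.R773.HN.Defs3

/-!
# Subgroups of small index in the group of Hamiltonian homeomorphisms of the ball

Definitions: `Pool/Agent/R773/HN/Defs.lean`, `Pool/Agent/R773/HN/Defs3.lean` and
`Pool/Agent/Y453/HB/Stm.lean` (the same as in the frozen statement S13311): `HamHomeo n` is the
group of compactly supported Hamiltonian homeomorphisms of the open unit ball `B` of `ℝ^{2n}`,
`FragGroup (HamHomeo n) ε` its normal subgroup generated by the elements supported in closed balls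
of radius at most `ε` in `B`. `Pool/Agent/D0H34/SI/Defs.lean`: `NoSmallIndex A`, the group `A` has
no proper subgroup of index less than `𝔠`; `NoCountableIndex A`: it has none of finite or countably
infinite index; `InSmallIndex S`: the subgroup `S` of `A` is contained in all the subgroups of `A`
of index less than `𝔠`; `IsSmallestNormal S`: `S` is the smallest nontrivial normal subgroup.

The starting result `SmallestNormalSubgroup` gives the smallest nontrivial normal subgroup `S`.
New is everything about subgroups which are not normal: the small index property.

Proof (folder `Pool/Agent/D0H34/SI`). Let `H` be a subgroup such that every family, indexed by the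
Cantor set, of elements of `S` has two members which are congruent modulo `H`.

* `Ip.lean`: the infinite product of arbitrary Hamiltonian homeomorphisms supported in disjoint
  balls with radii tending to zero is a Hamiltonian homeomorphism.
* `Loc2.lean`, `Mc.lean`: in every sequence of disjoint balls in a ball there is one such that `H`
  realises on it all the commutators of elements supported in it (diagonal argument), and such that
  `H` has a nontrivial element supported in it (Cantor family). A subgroup of the group of
  Hamiltonian homeomorphisms of the ball which has a nontrivial element and is normalised by the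
  commutators of Hamiltonian diffeomorphisms contains the smallest normal subgroup of `Ham_c(B)`;
  together with rescaling and a double commutator trick: `H` contains all the commutators of
  elements supported in the ball with the same centre and `1 / 80` times the radius.
* `Pts.lean`: translations along a Cantor family, congruent modulo `H`, carry this to all small
  balls at once, and by compactness the radius is locally uniform.
* `Cf.lean`: every Hamiltonian diffeomorphism is a product of Hamiltonian diffeomorphisms supported
  in balls of radius `ε`, all of whose partial products are uniformly Lipschitz up to an error of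
  the order of `ε`.
* `Fn.lean`: hence `H` contains all the conjugates, by elements of `HamHomeo n`, of the commutators
  of Hamiltonian diffeomorphisms, and therefore `S`.
-/

set_option autoImplicit false

open scoped commutatorElement Cardinal

namespace Pool.Agent.Results.MP_68f289_gt.SmallIndexProperty

open Pool.Agent.Y453.HB (E HamBar)
open Pool.Agent.R773.HN
open Pool.Agent.D0H34.SI (NoSmallIndex NoCountableIndex InSmallIndex IsSmallestNormal S0 S0_le
  S0_top ne_bot_of_simple mk_S tfae_frag tfae_all)

/-- Let `n ≥ 1` and let `S` be the smallest nontrivial normal subgroup of the group `HamHomeo n` of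
compactly supported Hamiltonian homeomorphisms of the ball `B` of `ℝ^{2n}`.

* `S` has exactly `𝔠` elements and no proper subgroup of index less than `𝔠`;
* every subgroup of `HamHomeo n` of index less than `𝔠` contains `S`; in other words, `S` acts
  trivially whenever `HamHomeo n` acts on a set with fewer than `𝔠` elements;
* let `F` be the normal subgroup of `HamHomeo n` generated by the elements supported in balls of
  radius at most `ε`, where `0 < ε ≤ 1 / 100`. Then `F` is simple if and only if `F` has no proper
  subgroup of countable index, if and only if `F` has no proper subgroup of index less than `𝔠`;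
* `HamHomeo n` is simple if and only if `F = HamHomeo n` and `HamHomeo n` has no proper subgroup of
  countable index, if and only if `F = HamHomeo n` and `HamHomeo n` has no proper subgroup of
  index less than `𝔠`. -/
theorem result (n : ℕ) (hn : 0 < n) :
    ∃ S : Subgroup (HamHomeo n), IsSmallestNormal S ∧ IsSimpleGroup S ∧ #S = 𝔠 ∧
      NoSmallIndex S ∧ InSmallIndex S ∧
      ∀ ε : ℝ, 0 < ε → ε ≤ 1 / 100 → ∀ F : Subgroup (HamHomeo n), F = FragGroup (HamHomeo n) ε →
        (IsSimpleGroup F ↔ NoSmallIndex F) ∧ (IsSimpleGroup F ↔ NoCountableIndex F) ∧
        (IsSimpleGroup (HamHomeo n) ↔ F = ⊤ ∧ NoSmallIndex (HamHomeo n)) ∧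
        (IsSimpleGroup (HamHomeo n) ↔ F = ⊤ ∧ NoCountableIndex (HamHomeo n)) := by
  have hΓ : Mid (HamBar n) := Pool.Agent.D0H34.SI.midB
  obtain ⟨S, s1, s2, s3, -, -, -, -, s8⟩ := main_of' hSm hCo hn (HamBar n) hΓ.1 hΓ.2
  have hSe : S = S0 n :=
    le_antisymm (s3 _ (MS_normal _) (MS_ne hn hΓ)) (MS_le s1 (ne_bot_of_simple s2))
  have h5 : ∀ H : Subgroup S, #(S ⧸ H) < 𝔠 → H = ⊤ := by
    subst hSe
    exact fun H hH => S0_top hn hH
  have h6 : ∀ H : Subgroup (HamBar n), #(HamBar n ⧸ H) < 𝔠 → S ≤ H := by
    subst hSe
    exact fun H hH => S0_le hn hH
  refine ⟨S, ⟨s1, ne_bot_of_simple s2, s3⟩, s2, mk_S hn s2 h5, h5, h6, ?_⟩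
  rintro ε hε0 hε F rfl
  have t1 := tfae_frag (G := HamHomeo n) (S := S) (F := FragGroup (HamHomeo n) ε) s1 s2 h5
    Subgroup.normalClosure_normal (s8 ε hε0 hε).1
  have t2 := tfae_all (G := HamHomeo n) (S := S) (F := FragGroup (HamHomeo n) ε) s1 s2 h6
    (s8 ε hε0 hε).2
  exact ⟨t1.out 0 1, t1.out 0 2, t2.out 0 1, t2.out 0 2⟩

end Pool.Agent.Results.MP_68f289_gt.SmallIndexProperty
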